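import Pool.Agent.H474.RZ.Stm

/-! MP_023270_nt, project RZ, task BLK: the bounds of the block integrals. -/

set_option autoImplicit false

open Complex MeasureTheory Filter Topology
open Pool.Agent.H474.RZ

namespace Pool.Agent.H415.RZ.BLK

lemma pow_exp (p : ℕ) {δ y : ℝ} (hδ : 0 < δ) (hδ1 : δ ≤ 1) (hy : 0 ≤ y) :
    (1 + y) ^ p * Real.exp (-(δ * y)) ≤ (p.factorial : ℝ) * Real.exp 1 * (δ ^ p)⁻¹ := by
  have h1 := Real.pow_div_factorial_le_exp (δ * (1 + y)) (by positivity) p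
  have hp : (0 : ℝ) < p.factorial := by exact_mod_cast p.factorial_pos
  rw [div_le_iff₀ hp] at h1
  have h2 : Real.exp (δ * (1 + y)) ≤ Real.exp 1 * Real.exp (δ * y) := by
    rw [← Real.exp_add]
    apply Real.exp_le_exp.2
    linarith
  have h3 : (δ * (1 + y)) ^ p ≤ Real.exp 1 * Real.exp (δ * y) * p.factorial :=
    h1.trans (mul_le_mul_of_nonneg_right h2 hp.le)
  rw [mul_pow] at h3
  have h4 : 0 < δ ^ p := pow_pos hδ p
  rw [Real.exp_neg, ← div_eq_mul_inv, ← div_eq_mul_inv, div_le_div_iff₀ (Real.exp_pos _) h4]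
  linarith

/-- integration against an exponential weight -/
lemma key (f : ℝ → ℝ) (hf : Continuous f) (h0 : ∀ x, 0 ≤ f x) {A B δ : ℝ} (hA : 0 ≤ A)
    (hB : 0 ≤ B) (hδ : 0 < δ) (hδ1 : δ ≤ 1)
    (h : ∀ X : ℝ, 1 ≤ X → (∫ x in (-X)..X, f x) ≤ A * (X + B)) :
    Integrable (fun x : ℝ => Real.exp (-(3 * δ * |x|)) * f x) ∧
      (∫ x : ℝ, Real.exp (-(3 * δ * |x|)) * f x) ≤ 2 * (A * (1 / δ + B)) := by
  have hcont : Continuous (fun x : ℝ => Real.exp (-(3 * δ * |x|)) * f x) := by fun_prop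
  have hn : ∀ x : ℝ, 0 ≤ Real.exp (-(3 * δ * |x|)) * f x := fun x =>
    mul_nonneg (Real.exp_pos _).le (h0 x)
  have hI : ∀ k : ℕ, (0 : ℝ) ≤ (k + 1) / δ := fun k => by positivity
  have hI1 : ∀ k : ℕ, (1 : ℝ) ≤ (k + 1) / δ := fun k => by
    rw [le_div_iff₀ hδ]
    have : (0 : ℝ) ≤ k := Nat.cast_nonneg k
    linarith
  have hAB : 0 ≤ A * (1 / δ + B) := by positivity
  have hle : ∫⁻ x : ℝ, ENNReal.ofReal (Real.exp (-(3 * δ * |x|)) * f x) ≤
      ENNReal.ofReal (2 * (A * (1 / δ + B))) := by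
    calc ∫⁻ x : ℝ, ENNReal.ofReal (Real.exp (-(3 * δ * |x|)) * f x)
        ≤ ∫⁻ x : ℝ, ∑' k : ℕ, (Set.Icc (-((k + 1) / δ)) ((k + 1) / δ)).indicator
            (fun x => ENNReal.ofReal (Real.exp (-(3 * k)) * f x)) x := by
          apply lintegral_mono
          intro x
          have hx0 : 0 ≤ δ * |x| := by positivity
          set k := ⌊δ * |x|⌋₊ with hk
          have h1 : (k : ℝ) ≤ δ * |x| := Nat.floor_le hx0
          have h2 : δ * |x| < k + 1 := Nat.lt_floor_add_one _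
          have h3 : |x| ≤ (k + 1) / δ := by
            rw [le_div_iff₀ hδ]; linarith
          refine le_trans ?_ (ENNReal.le_tsum k)
          rw [Set.indicator_of_mem (by rw [Set.mem_Icc, ← abs_le]; exact h3)]
          apply ENNReal.ofReal_le_ofReal
          apply mul_le_mul_of_nonneg_right _ (h0 x)
          apply Real.exp_le_exp.2
          linarith
      _ = ∑' k : ℕ, ∫⁻ x : ℝ, (Set.Icc (-((k + 1) / δ)) ((k + 1) / δ)).indicator
            (fun x => ENNReal.ofReal (Real.exp (-(3 * k)) * f x)) x := by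
          apply lintegral_tsum
          intro k
          apply AEMeasurable.indicator _ measurableSet_Icc
          exact (ENNReal.measurable_ofReal.comp (by fun_prop : Continuous
            fun x => Real.exp (-(3 * k)) * f x).measurable).aemeasurable
      _ ≤ ∑' k : ℕ, ENNReal.ofReal ((A * (1 / δ + B)) * (1 / 2) ^ k) := by
          apply ENNReal.tsum_le_tsum
          intro k
          rw [lintegral_indicator measurableSet_Icc]
          have hint : IntegrableOn (fun x => Real.exp (-(3 * k)) * f x)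
              (Set.Icc (-((k + 1) / δ)) ((k + 1) / δ)) :=
            (by fun_prop : Continuous fun x => Real.exp (-(3 * k)) * f x).integrableOn_Icc
          rw [← ofReal_integral_eq_lintegral_ofReal hint
            (Eventually.of_forall fun x => mul_nonneg (Real.exp_pos _).le (h0 x))]
          apply ENNReal.ofReal_le_ofReal
          rw [integral_const_mul, integral_Icc_eq_integral_Ioc,
            ← intervalIntegral.integral_of_le (by linarith [hI k])]
          have h1 := h _ (hI1 k)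
          have hk1 : (k : ℝ) + 1 ≤ 2 ^ k := by
            have : k + 1 ≤ 2 ^ k := Nat.lt_two_pow_self
            exact_mod_cast this
          have hk0 : (0 : ℝ) ≤ k := Nat.cast_nonneg k
          have h2 : A * ((k + 1) / δ + B) ≤ 2 ^ k * (A * (1 / δ + B)) := by
            have h3 : (k + 1) / δ + B ≤ 2 ^ k * (1 / δ + B) := by
              have h4 : (k + 1) / δ ≤ 2 ^ k * (1 / δ) := by
                rw [mul_one_div]
                gcongr
              have h5 : B ≤ 2 ^ k * B := by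
                apply le_mul_of_one_le_left hB
                linarith
              linarith
            calc A * ((k + 1) / δ + B) ≤ A * (2 ^ k * (1 / δ + B)) :=
                  mul_le_mul_of_nonneg_left h3 hA
              _ = _ := by ring
          have h6 : Real.exp (-(3 * k)) * 2 ^ k ≤ (1 / 2) ^ k := by
            have h7 : Real.exp (-(3 * k)) = Real.exp (-3) ^ k := by
              rw [← Real.exp_nat_mul]; congr 1; ring
            rw [h7, ← mul_pow]
            apply pow_le_pow_left₀ (by positivity)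
            have h8 : Real.exp (-3) ≤ 1 / 4 := by
              have h9 := Real.add_one_le_exp (3 : ℝ)
              rw [Real.exp_neg, ← one_div]
              apply one_div_le_one_div_of_le (by norm_num)
              linarith
            linarith
          calc Real.exp (-(3 * k)) * ∫ x in (-((k + 1) / δ))..((k + 1) / δ), f x
              ≤ Real.exp (-(3 * k)) * (2 ^ k * (A * (1 / δ + B))) :=
                mul_le_mul_of_nonneg_left (h1.trans h2) (Real.exp_pos _).le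
            _ = (Real.exp (-(3 * k)) * 2 ^ k) * (A * (1 / δ + B)) := by ring
            _ ≤ (1 / 2) ^ k * (A * (1 / δ + B)) := mul_le_mul_of_nonneg_right h6 hAB
            _ = _ := by ring
      _ = ENNReal.ofReal (2 * (A * (1 / δ + B))) := by
          rw [← ENNReal.ofReal_tsum_of_nonneg (fun k => by positivity)
            (summable_geometric_two.mul_left _), tsum_mul_left, tsum_geometric_two, mul_comm]
  have hint : Integrable (fun x : ℝ => Real.exp (-(3 * δ * |x|)) * f x) := by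
    refine ⟨hcont.aestronglyMeasurable, ?_⟩
    rw [hasFiniteIntegral_iff_ofReal (Eventually.of_forall hn)]
    exact lt_of_le_of_lt hle ENNReal.ofReal_lt_top
  refine ⟨hint, ?_⟩
  rw [integral_eq_lintegral_of_nonneg_ae (Eventually.of_forall hn) hcont.aestronglyMeasurable]
  exact ENNReal.toReal_le_of_le_ofReal (by positivity) hle

lemma cont_DD (M : ℕ) (σ : ℂ) : Continuous (fun x : ℝ => DD M (σ + I * x)) := by
  unfold DD
  fun_prop

lemma cont_hh (σ : ℝ) (hσ : -2 < σ) : Continuous (fun x : ℝ => hh ((σ : ℂ) + I * x)) := by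
  have h1 : Continuous (fun x : ℝ => Complex.Gamma (1 + ((σ : ℂ) + I * x) / 2)) := by
    rw [continuous_iff_continuousAt]
    intro x
    have h2 : ContinuousAt Complex.Gamma (1 + ((σ : ℂ) + I * x) / 2) := by
      apply (Complex.differentiableAt_Gamma _ _).continuousAt
      intro m hm
      have h3 := congrArg Complex.re hm
      simp at h3
      have : (0 : ℝ) ≤ m := Nat.cast_nonneg m
      linarith
    exact ContinuousAt.comp (f := fun x : ℝ => 1 + ((σ : ℂ) + I * x) / 2) h2 (by fun_prop)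
  unfold hh
  exact ((by fun_prop : Continuous fun x : ℝ => ((σ : ℂ) + I * x) - 1).mul h1).mul (by fun_prop)

lemma cont_B4 (σ : ℝ) (hσ : -2 < σ) (δ : ℝ) (M : ℕ) : Continuous (B4 σ δ M) := by
  unfold B4
  have h1 := cont_hh σ hσ
  have h2 := cont_DD M σ
  exact ((by fun_prop : Continuous fun x : ℝ => Real.exp (al δ * x)).mul (h1.mul h2).norm).pow 4

lemma B4_le (σ q C₁ : ℝ) (p : ℕ) (hq : q * 4 = p) (hC₁ : 0 < C₁)
    (hh1 : ∀ x : ℝ, ‖hh (σ + I * x)‖ ≤ C₁ * (1 + |x|) ^ q * Real.exp (-(Real.pi / 4 * |x|)))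
    (M : ℕ) (δ : ℝ) (hδ : 0 < δ) (hδ8 : δ ≤ Real.pi / 8) (hδ1 : δ ≤ 1) (x : ℝ) :
    B4 σ δ M x ≤ C₁ ^ 4 * ((p.factorial : ℝ) * Real.exp 1 * (δ ^ p)⁻¹) *
      (Real.exp (-(3 * δ * |x|)) * ‖DD M (σ + I * x)‖ ^ 4) := by
  have hx := abs_nonneg x
  have hπ := Real.pi_pos
  have hal : 0 ≤ al δ := by unfold al; linarith
  have e1 : Real.exp (al δ * x) * Real.exp (-(Real.pi / 4 * |x|)) ≤ Real.exp (-(δ * |x|)) := by
    rw [← Real.exp_add]
    apply Real.exp_le_exp.2
    have := mul_le_mul_of_nonneg_left (le_abs_self x) hal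
    have h2 : al δ * |x| = Real.pi / 4 * |x| - δ * |x| := by unfold al; ring
    linarith
  have e2 : ((1 + |x|) ^ q) ^ 4 = (1 + |x|) ^ p := by
    rw [← Real.rpow_natCast ((1 + |x|) ^ q), ← Real.rpow_mul (by positivity)]
    push_cast
    rw [hq, Real.rpow_natCast]
  have e3 : Real.exp (-(δ * |x|)) ^ 4 = Real.exp (-(δ * |x|)) * Real.exp (-(3 * δ * |x|)) := by
    rw [← Real.exp_nat_mul, ← Real.exp_add]
    congr 1
    push_cast
    ring
  unfold B4
  calc (Real.exp (al δ * x) * ‖hh (σ + I * x) * DD M (σ + I * x)‖) ^ 4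
      ≤ (Real.exp (al δ * x) * ((C₁ * (1 + |x|) ^ q * Real.exp (-(Real.pi / 4 * |x|))) *
          ‖DD M (σ + I * x)‖)) ^ 4 := by
        rw [norm_mul]
        have := hh1 x
        gcongr
    _ = (C₁ ^ 4 * ((1 + |x|) ^ q) ^ 4 *
        (Real.exp (al δ * x) * Real.exp (-(Real.pi / 4 * |x|))) ^ 4) * ‖DD M (σ + I * x)‖ ^ 4 := by
        ring
    _ ≤ (C₁ ^ 4 * ((1 + |x|) ^ q) ^ 4 * Real.exp (-(δ * |x|)) ^ 4) * ‖DD M (σ + I * x)‖ ^ 4 := by
        gcongr
    _ = C₁ ^ 4 * ((1 + |x|) ^ p * Real.exp (-(δ * |x|))) *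
        (Real.exp (-(3 * δ * |x|)) * ‖DD M (σ + I * x)‖ ^ 4) := by
        rw [e2, e3]; ring
    _ ≤ _ := by
        have := pow_exp p hδ hδ1 hx
        gcongr

lemma B4_nonneg (σ δ : ℝ) (M : ℕ) (x : ℝ) : 0 ≤ B4 σ δ M x := by
  unfold B4; positivity

lemma B4_int (σ q C₁ : ℝ) (p : ℕ) (hσ : -2 < σ) (hq : q * 4 = p) (hC₁ : 0 < C₁)
    (hh1 : ∀ x : ℝ, ‖hh (σ + I * x)‖ ≤ C₁ * (1 + |x|) ^ q * Real.exp (-(Real.pi / 4 * |x|)))
    (M : ℕ) (δ : ℝ) (hδ : 0 < δ) (hδ8 : δ ≤ Real.pi / 8) (hδ1 : δ ≤ 1) (A : ℝ) (hA : 0 ≤ A)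
    (h : ∀ X : ℝ, 1 ≤ X → (∫ x in (-X)..X, ‖DD M (σ + I * x)‖ ^ 4) ≤ A * (X + (M : ℝ) ^ 2)) :
    Integrable (B4 σ δ M) ∧ (∫ x, B4 σ δ M x) ≤
      C₁ ^ 4 * ((p.factorial : ℝ) * Real.exp 1 * (δ ^ p)⁻¹) * (2 * (A * (1 / δ + (M : ℝ) ^ 2))) := by
  have hk := key (fun x : ℝ => ‖DD M (σ + I * x)‖ ^ 4) ((cont_DD M σ).norm.pow 4)
    (fun x => by positivity) hA (by positivity : (0 : ℝ) ≤ (M : ℝ) ^ 2) hδ hδ1 h
  have hint : Integrable (B4 σ δ M) := by
    apply Integrable.mono' (hk.1.const_mul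
      (C₁ ^ 4 * ((p.factorial : ℝ) * Real.exp 1 * (δ ^ p)⁻¹)))
      (cont_B4 σ hσ δ M).aestronglyMeasurable
    apply Eventually.of_forall
    intro x
    rw [Real.norm_of_nonneg (B4_nonneg σ δ M x)]
    exact B4_le σ q C₁ p hq hC₁ hh1 M δ hδ hδ8 hδ1 x
  refine ⟨hint, ?_⟩
  calc (∫ x, B4 σ δ M x) ≤ ∫ x, C₁ ^ 4 * ((p.factorial : ℝ) * Real.exp 1 * (δ ^ p)⁻¹) *
      (Real.exp (-(3 * δ * |x|)) * ‖DD M (σ + I * x)‖ ^ 4) :=
        integral_mono hint (hk.1.const_mul _)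
          (fun x => B4_le σ q C₁ p hq hC₁ hh1 M δ hδ hδ8 hδ1 x)
    _ = C₁ ^ 4 * ((p.factorial : ℝ) * Real.exp 1 * (δ ^ p)⁻¹) *
        ∫ x, (Real.exp (-(3 * δ * |x|)) * ‖DD M (σ + I * x)‖ ^ 4) := integral_const_mul _ _
    _ ≤ _ := mul_le_mul_of_nonneg_left hk.2 (by positivity)

theorem t_BLK : S_BLK := by
  rintro ⟨C₁, hC₁, hG⟩ ⟨C₂, hC₂, hM⟩
  refine ⟨C₁ ^ 4 * ((Nat.factorial 9 : ℝ) * Real.exp 1) * (4 * C₂), by positivity, ?_⟩
  intro M δ hM1 hδ hδ8
  have hπ := Real.pi_pos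
  have hπ4 := Real.pi_le_four
  have hδ1 : δ ≤ 1 := by linarith
  have hMr : (1 : ℝ) ≤ M := by exact_mod_cast hM1
  have hM0 : (0 : ℝ) < M := by linarith
  have hlog : 0 ≤ Real.log M := Real.log_nonneg hMr
  have hL : 0 < 1 + Real.log M := by linarith
  have H1 := B4_int (3 / 2) (9 / 4) C₁ 9 (by norm_num) (by norm_num) hC₁
    (fun x => by have := (hG x).1; push_cast; exact this) M δ hδ hδ8 hδ1
    (C₂ * ((M : ℝ) ^ 4)⁻¹ * (1 + Real.log M)) (by positivity)
    (fun X hX => by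
      have := (hM M X hM1 hX).1
      push_cast
      calc _ ≤ _ := this
        _ = _ := by ring)
  have H2 := B4_int (-(1 / 2)) (5 / 4) C₁ 5 (by norm_num) (by norm_num) hC₁
    (fun x => by have := (hG x).2; push_cast; exact this) M δ hδ hδ8 hδ1
    (C₂ * (M : ℝ) ^ 4 * (1 + Real.log M)) (by positivity)
    (fun X hX => by
      have := (hM M X hM1 hX).2
      push_cast
      calc _ ≤ _ := this
        _ = _ := by ring)
  refine ⟨⟨H1.1, H2.1⟩, ?_, ?_⟩
  · intro h
    have h1 : 1 / δ ≤ (M : ℝ) ^ 2 := by rw [div_le_iff₀ hδ]; exact h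
    calc (∫ x, B4 (3 / 2) δ M x) ≤ _ := H1.2
      _ ≤ C₁ ^ 4 * ((Nat.factorial 9 : ℝ) * Real.exp 1 * (δ ^ 9)⁻¹) *
        (2 * ((C₂ * ((M : ℝ) ^ 4)⁻¹ * (1 + Real.log M)) * ((M : ℝ) ^ 2 + (M : ℝ) ^ 2))) := by
          gcongr
      _ = _ := by
          field_simp
          ring
  · intro h
    have h1 : (M : ℝ) ^ 2 ≤ 1 / δ := by rw [le_div_iff₀ hδ]; exact h
    have h5 : (Nat.factorial 5 : ℝ) ≤ (Nat.factorial 9 : ℝ) := by
      exact_mod_cast Nat.factorial_le (by norm_num)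
    calc (∫ x, B4 (-(1 / 2)) δ M x) ≤ _ := H2.2
      _ ≤ C₁ ^ 4 * ((Nat.factorial 9 : ℝ) * Real.exp 1 * (δ ^ 5)⁻¹) *
        (2 * ((C₂ * (M : ℝ) ^ 4 * (1 + Real.log M)) * (1 / δ + 1 / δ))) := by
          gcongr
      _ = _ := by
          field_simp
          ring

end Pool.Agent.H415.RZ.BLK
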